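import Mathlib

/-!
# Second powers of closed neighborhood ideals of Kneser graphs

For all `1 ≤ k < n` and every field `K`, the maximal homogeneous ideal is an associated prime of
`S / NI(K(n,k)) ^ 2` exactly when `n < 2 * k` (edgeless graph, `NI` is the maximal ideal itself)
or `2 ≤ k` and `n = 3 * k - 1`.
-/

open MvPolynomial

noncomputable section

namespace Pool.Agent.Results.MP_a8e883_al.KneserSquare

/-- The prime `P` is an associated prime of `S / I`: it is the annihilator of some `f` mod `I`. -/
def IsAssoc {S : Type} [CommRing S] (P I : Ideal S) : Prop :=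
  P.IsPrime ∧ ∃ f : S, ∀ a : S, a ∈ P ↔ a * f ∈ I

/-- The closed neighbourhood of a vertex. -/
def closedNbhd {V : Type} [Fintype V] (G : SimpleGraph V) (i : V) : Finset V := by
  classical exact Finset.univ.filter fun j => j = i ∨ G.Adj i j

/-- The closed neighbourhood ideal `NI(G)`. -/
def NI (K : Type) [Field K] {V : Type} [Fintype V] (G : SimpleGraph V) :
    Ideal (MvPolynomial V K) :=
  Ideal.span (Set.range fun i : V => ∏ j ∈ closedNbhd G i, (X j : MvPolynomial V K))

/-- The maximal homogeneous ideal. -/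
def maxIdeal (K : Type) [Field K] (V : Type) : Ideal (MvPolynomial V K) :=
  Ideal.span (Set.range fun j : V => (X j : MvPolynomial V K))

/-- The vertices of the Kneser graph `K(n,k)`: the `k`-element subsets of an `n`-element set. -/
abbrev Vert (n k : ℕ) : Type := {s : Finset (Fin n) // s.card = k}

/-- The Kneser graph. -/
def kneser (n k : ℕ) : SimpleGraph (Vert n k) where
  Adj a b := a ≠ b ∧ Disjoint a.1 b.1
  symm := ⟨fun _ _ h => ⟨h.1.symm, h.2.symm⟩⟩
  loopless := ⟨fun _ h => h.1 rfl⟩

set_option linter.unusedSectionVars false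

/-! ### Monomials -/

section Alg

variable {K : Type} [Field K] {V : Type} [Fintype V]

/-- indicator exponent -/
def ch (W : Finset V) : V →₀ ℕ := by
  classical exact ∑ j ∈ W, Finsupp.single j 1

lemma ch_apply [DecidableEq V] (W : Finset V) (v : V) : ch W v = if v ∈ W then 1 else 0 := by
  classical
  unfold ch
  rw [Finsupp.finsetSum_apply]
  simp [Finsupp.single_apply]

lemma prod_X (W : Finset V) : (∏ j ∈ W, (X j : MvPolynomial V K)) = monomial (ch W) 1 := by
  classical
  unfold ch
  induction W using Finset.induction_on with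
  | empty => simp
  | insert a s ha ih =>
    rw [Finset.prod_insert ha, ih, Finset.sum_insert ha, X, monomial_mul, one_mul]

lemma NI_sq (G : SimpleGraph V) :
    (NI K G) ^ 2 = Ideal.span ((fun s => monomial s (1 : K)) ''
      (Set.range fun p : V × V => ch (closedNbhd G p.1) + ch (closedNbhd G p.2))) := by
  rw [NI, sq, Ideal.span_mul_span']
  congr 1
  ext f
  constructor
  · rintro ⟨_, ⟨a, rfl⟩, _, ⟨b, rfl⟩, rfl⟩
    refine ⟨_, ⟨(a, b), rfl⟩, ?_⟩
    simp only [prod_X, monomial_mul, one_mul]
  · rintro ⟨_, ⟨⟨a, b⟩, rfl⟩, rfl⟩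
    refine ⟨_, ⟨a, rfl⟩, _, ⟨b, rfl⟩, ?_⟩
    simp only [prod_X, monomial_mul, one_mul]

lemma mem_NI_sq (G : SimpleGraph V) (f : MvPolynomial V K) :
    f ∈ (NI K G) ^ 2 ↔ ∀ u ∈ f.support, ∃ a b : V,
      ch (closedNbhd G a) + ch (closedNbhd G b) ≤ u := by
  rw [NI_sq, mem_ideal_span_monomial_image]
  refine forall₂_congr fun u _ => ?_
  constructor
  · rintro ⟨_, ⟨⟨a, b⟩, rfl⟩, h⟩
    exact ⟨a, b, h⟩
  · rintro ⟨a, b, h⟩
    exact ⟨_, ⟨(a, b), rfl⟩, h⟩

lemma mem_maxIdeal (f : MvPolynomial V K) : f ∈ maxIdeal K V ↔ coeff 0 f = 0 := by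
  have h : maxIdeal K V = Ideal.span (X '' (Set.univ : Set V)) := by
    rw [Set.image_univ]
    rfl
  rw [h, mem_ideal_span_X_image]
  constructor
  · intro h1
    by_contra h2
    obtain ⟨i, _, hi⟩ := h1 0 (by rwa [mem_support_iff])
    exact hi rfl
  · intro h1 m hm
    have hm0 : m ≠ 0 := by
      rintro rfl
      exact (mem_support_iff.mp hm) h1
    obtain ⟨i, hi⟩ := Finsupp.ne_iff.mp hm0
    exact ⟨i, trivial, hi⟩

lemma maxIdeal_prime : (maxIdeal K V).IsPrime := by
  rw [Ideal.isPrime_iff]
  constructor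
  · intro h
    have h1 : (1 : MvPolynomial V K) ∈ maxIdeal K V := by rw [h]; trivial
    rw [mem_maxIdeal] at h1
    simp at h1
  · intro f g hfg
    rw [mem_maxIdeal] at hfg ⊢
    rw [mem_maxIdeal]
    have h1 : coeff 0 (f * g) = coeff 0 f * coeff 0 g := by
      have := map_mul (constantCoeff (R := K) (σ := V)) f g
      simpa [constantCoeff_eq] using this
    rw [h1] at hfg
    exact mul_eq_zero.mp hfg

/-- the monomial criterion -/
theorem assoc_iff (G : SimpleGraph V) [DecidableEq V] :
    IsAssoc (maxIdeal K V) ((NI K G) ^ 2) ↔ ∃ u : V →₀ ℕ,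
      (∀ a b : V, ∃ w : V, u w < (if w ∈ closedNbhd G a then 1 else 0) +
        (if w ∈ closedNbhd G b then 1 else 0)) ∧
      ∀ v : V, ∃ a b : V, ∀ w : V, (if w ∈ closedNbhd G a then 1 else 0) +
        (if w ∈ closedNbhd G b then 1 else 0) ≤ u w + (if w = v then 1 else 0) := by
  have hle : ∀ (a b : V) (u : V →₀ ℕ), ch (closedNbhd G a) + ch (closedNbhd G b) ≤ u ↔
      ∀ w, (if w ∈ closedNbhd G a then 1 else 0) +
        (if w ∈ closedNbhd G b then 1 else 0) ≤ u w := by
    intro a b u
    rw [Finsupp.le_def]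
    refine forall_congr' fun w => ?_
    rw [Finsupp.add_apply, ch_apply, ch_apply]
  constructor
  · rintro ⟨_, f, hf⟩
    have h1 : f ∉ (NI K G) ^ 2 := by
      intro h
      have h2 := (hf 1).mpr (by rwa [one_mul])
      rw [mem_maxIdeal] at h2
      simp at h2
    rw [mem_NI_sq] at h1
    push Not at h1
    obtain ⟨u, hu, h1⟩ := h1
    refine ⟨u, ?_, ?_⟩
    · intro a b
      have h2 := h1 a b
      rw [hle] at h2
      push Not at h2
      exact h2
    · intro v
      have h2 : X v * f ∈ (NI K G) ^ 2 := (hf (X v)).mp (Ideal.subset_span ⟨v, rfl⟩)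
      rw [mem_NI_sq] at h2
      obtain ⟨a, b, h3⟩ := h2 (Finsupp.single v 1 + u) (by
        rw [support_X_mul]
        exact Finset.mem_map_of_mem _ hu)
      rw [hle] at h3
      refine ⟨a, b, fun w => (h3 w).trans ?_⟩
      rw [Finsupp.add_apply, Finsupp.single_apply, add_comm]
      by_cases hw : w = v
      · subst hw
        simp
      · rw [if_neg hw, if_neg (Ne.symm hw)]
  · rintro ⟨u, H1, H2⟩
    refine ⟨maxIdeal_prime, monomial u 1, fun a => ?_⟩
    constructor
    · intro ha
      have h1 : maxIdeal K V ≤ ((NI K G) ^ 2).colon {monomial u (1 : K)} := by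
        unfold maxIdeal
        rw [Ideal.span_le]
        rintro _ ⟨v, rfl⟩
        rw [SetLike.mem_coe, Submodule.mem_colon_singleton, smul_eq_mul, mem_NI_sq]
        intro m hm
        have hm1 : m = Finsupp.single v 1 + u := by
          have : (X v * monomial u 1 : MvPolynomial V K) =
              monomial (Finsupp.single v 1 + u) 1 := by
            rw [X, monomial_mul, one_mul]
          rw [this] at hm
          have := support_monomial_subset hm
          simpa using this
        obtain ⟨a, b, h⟩ := H2 v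
        refine ⟨a, b, ?_⟩
        rw [hle]
        intro w
        refine (h w).trans ?_
        rw [hm1, Finsupp.add_apply, Finsupp.single_apply, add_comm]
        by_cases hw : w = v
        · subst hw
          simp
        · rw [if_neg hw, if_neg (Ne.symm hw)]
      have h2 := h1 ha
      rw [Submodule.mem_colon_singleton, smul_eq_mul] at h2
      exact h2
    · intro ha
      rw [mem_maxIdeal]
      by_contra h0
      rw [mem_NI_sq] at ha
      obtain ⟨x, y, h⟩ := ha u (by
        rw [mem_support_iff, coeff_mul_monomial', if_pos le_rfl]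
        simpa using h0)
      rw [hle] at h
      obtain ⟨w, hw⟩ := H1 x y
      exact absurd (h w) (not_le.mpr hw)

end Alg

/-! ### Kneser graphs -/

section Kn

variable {n k : ℕ}

lemma mem_nb (a w : Vert n k) : w ∈ closedNbhd (kneser n k) a ↔
    w = a ∨ (a ≠ w ∧ Disjoint a.1 w.1) := by
  unfold closedNbhd
  simp only [Finset.mem_filter, Finset.mem_univ, true_and]
  rfl

/-- exchange: a vertex avoiding `S` different from `v`, when some point lies outside `S` and `v` -/
lemma exchange {S : Finset (Fin n)} (hk : 1 ≤ k) (v : Vert n k) (hv : Disjoint v.1 S)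
    {x : Fin n} (hx : x ∉ v.1) (hxS : x ∉ S) : ∃ w : Vert n k, w ≠ v ∧ Disjoint w.1 S := by
  have hne : v.1.Nonempty := by
    rw [← Finset.card_pos, v.2]
    omega
  obtain ⟨y, hy⟩ := hne
  refine ⟨⟨insert x (v.1.erase y), ?_⟩, ?_, ?_⟩
  · rw [Finset.card_insert_of_notMem (fun h => hx (Finset.mem_of_mem_erase h)),
      Finset.card_erase_of_mem hy, v.2]
    omega
  · intro h
    apply hx
    have h1 := congrArg Subtype.val h
    rw [← h1]
    exact Finset.mem_insert_self _ _
  · rw [Finset.disjoint_left]
    intro z hz hzS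
    rcases Finset.mem_insert.mp hz with rfl | h
    · exact hxS hzS
    · exact Finset.disjoint_left.mp hv (Finset.mem_of_mem_erase h) hzS

/-- a `k`-set inside a large set -/
lemma exists_vert {S : Finset (Fin n)} (h : k ≤ S.card) : ∃ w : Vert n k, w.1 ⊆ S := by
  obtain ⟨t, ht, hc⟩ := Finset.exists_subset_card_eq h
  exact ⟨⟨t, hc⟩, ht⟩

theorem no_witness (hk : 1 ≤ k) (hn : 2 * k ≤ n) (hkn : k < n) (hne : ¬ (2 ≤ k ∧ n = 3 * k - 1))
    (u : Vert n k → ℕ)
    (H1 : ∀ a b : Vert n k, ∃ w, u w < (if w ∈ closedNbhd (kneser n k) a then 1 else 0) +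
        (if w ∈ closedNbhd (kneser n k) b then 1 else 0))
    (H2 : ∀ v : Vert n k, ∃ a b, ∀ w, (if w ∈ closedNbhd (kneser n k) a then 1 else 0) +
        (if w ∈ closedNbhd (kneser n k) b then 1 else 0) ≤ u w + (if w = v then 1 else 0)) :
    False := by
  classical
  set N := closedNbhd (kneser n k) with hN
  -- sharpened form of `H2`
  have H3 : ∀ v : Vert n k, ∃ a b, (if v ∈ N a then 1 else 0) + (if v ∈ N b then 1 else 0) =
      u v + 1 ∧ ∀ w, w ≠ v → (if w ∈ N a then 1 else 0) + (if w ∈ N b then 1 else 0) ≤ u w := by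
    intro v
    obtain ⟨a, b, h⟩ := H2 v
    refine ⟨a, b, ?_, ?_⟩
    · obtain ⟨w, hw⟩ := H1 a b
      have h1 := h w
      by_cases hwv : w = v
      · subst hwv
        rw [if_pos rfl] at h1
        omega
      · rw [if_neg hwv] at h1
        omega
    · intro w hw
      have h1 := h w
      rwa [if_neg hw, add_zero] at h1
  have hu1 : ∀ v, u v ≤ 1 := by
    intro v
    obtain ⟨a, b, h, _⟩ := H3 v
    split_ifs at h <;> omega
  -- vertices whose closed neighbourhood lies in the support
  have self_mem : ∀ a : Vert n k, a ∈ N a := fun a => (mem_nb a a).mpr (Or.inl rfl)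
  -- the structure at a vertex of the support
  have P2 : ∀ v : Vert n k, u v = 1 → ∃ a b : Vert n k,
      (∀ w ∈ N a, u w = 1) ∧ (∀ w ∈ N b, u w = 1) ∧ a ≠ b ∧ ¬ Disjoint a.1 b.1 ∧
      a.1 ∪ b.1 = v.1ᶜ := by
    intro v hv
    obtain ⟨a, b, h, h'⟩ := H3 v
    have hva : v ∈ N a := by
      by_contra hc
      rw [if_neg hc] at h
      split_ifs at h <;> omega
    have hvb : v ∈ N b := by
      by_contra hc
      rw [if_neg hc] at h
      split_ifs at h <;> omega
    have hWa : ∀ w ∈ N a, u w = 1 := by
      intro w hw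
      by_cases hwv : w = v
      · rw [hwv, hv]
      · have h1 := h' w hwv
        rw [if_pos hw] at h1
        have h2 := hu1 w
        omega
    have hWb : ∀ w ∈ N b, u w = 1 := by
      intro w hw
      by_cases hwv : w = v
      · rw [hwv, hv]
      · have h1 := h' w hwv
        rw [if_pos hw] at h1
        have h2 := hu1 w
        omega
    have huniq : ∀ w, w ∈ N a → w ∈ N b → w = v := by
      intro w ha hb
      by_contra hwv
      have h1 := h' w hwv
      rw [if_pos ha, if_pos hb] at h1
      have h2 := hu1 w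
      omega
    -- `a ≠ b`
    have hab : a ≠ b := by
      rintro rfl
      obtain ⟨c, hc⟩ := exists_vert (n := n) (k := k) (S := a.1ᶜ) (by
        rw [Finset.card_compl, Fintype.card_fin, a.2]
        omega)
      have hdis : Disjoint a.1 c.1 := by
        rw [Finset.disjoint_left]
        intro x hx hx'
        exact (Finset.mem_compl.mp (hc hx')) hx
      have hac : a ≠ c := by
        rintro rfl
        rw [disjoint_self, Finset.bot_eq_empty, ← Finset.card_eq_zero, a.2] at hdis
        omega
      have h1 := huniq a (self_mem a) (self_mem a)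
      have hcN : c ∈ N a := (mem_nb a c).mpr (Or.inr ⟨hac, hdis⟩)
      have h2 := huniq c hcN hcN
      exact hac (h1.trans h2.symm)
    have hnd : ¬ Disjoint a.1 b.1 := by
      intro hd
      have haN : a ∈ N b := (mem_nb b a).mpr (Or.inr ⟨hab.symm, hd.symm⟩)
      have hbN : b ∈ N a := (mem_nb a b).mpr (Or.inr ⟨hab, hd⟩)
      have h1 := huniq a (self_mem a) haN
      have h2 := huniq b hbN (self_mem b)
      exact hab (h1.trans h2.symm)
    have hda : Disjoint a.1 v.1 := by
      rcases (mem_nb a v).mp hva with h1 | h1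
      · rcases (mem_nb b v).mp hvb with h2 | h2
        · exact absurd (h1.symm.trans h2) hab
        · rw [h1] at h2
          exact absurd h2.2.symm hnd
      · exact h1.2
    have hdb : Disjoint b.1 v.1 := by
      rcases (mem_nb b v).mp hvb with h1 | h1
      · rcases (mem_nb a v).mp hva with h2 | h2
        · exact absurd (h2.symm.trans h1) hab
        · rw [h1] at h2
          exact absurd h2.2 hnd
      · exact h1.2
    refine ⟨a, b, hWa, hWb, hab, hnd, ?_⟩
    apply Finset.Subset.antisymm
    · intro x hx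
      rw [Finset.mem_compl]
      intro hxv
      rcases Finset.mem_union.mp hx with h1 | h1
      · exact Finset.disjoint_left.mp hda h1 hxv
      · exact Finset.disjoint_left.mp hdb h1 hxv
    · intro x hx
      by_contra hxab
      obtain ⟨w, hwv, hwd⟩ := exchange (S := a.1 ∪ b.1) hk v (by
        rw [Finset.disjoint_union_right]
        exact ⟨hda.symm, hdb.symm⟩) (Finset.mem_compl.mp hx) hxab
      rw [Finset.disjoint_union_right] at hwd
      apply hwv
      have hne' : ∀ c : Vert n k, Disjoint w.1 c.1 → c ≠ w := by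
        rintro c hd rfl
        rw [disjoint_self, Finset.bot_eq_empty, ← Finset.card_eq_zero, c.2] at hd
        omega
      exact huniq w ((mem_nb a w).mpr (Or.inr ⟨hne' a hwd.1, hwd.1.symm⟩))
        ((mem_nb b w).mpr (Or.inr ⟨hne' b hwd.2, hwd.2.symm⟩))
  -- a vertex whose closed neighbourhood lies in the support
  obtain ⟨i, hi⟩ : ∃ i : Vert n k, ∀ w ∈ N i, u w = 1 := by
    obtain ⟨v, -⟩ := exists_vert (n := n) (k := k) (S := Finset.univ) (by
      rw [Finset.card_univ, Fintype.card_fin]
      omega)
    by_cases hv : u v = 1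
    · obtain ⟨a, b, ha, _⟩ := P2 v hv
      exact ⟨a, ha⟩
    · have hv0 : u v = 0 := by
        have := hu1 v
        omega
      obtain ⟨a, b, h, h'⟩ := H3 v
      by_cases hva : v ∈ N a
      · have hvb : v ∉ N b := by
          intro hvb
          rw [if_pos hva, if_pos hvb] at h
          omega
        refine ⟨b, fun w hw => ?_⟩
        have hwv : w ≠ v := by
          rintro rfl
          exact hvb hw
        have h1 := h' w hwv
        rw [if_pos hw] at h1
        have h2 := hu1 w
        omega
      · refine ⟨a, fun w hw => ?_⟩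
        have hwv : w ≠ v := by
          rintro rfl
          exact hva hw
        have h1 := h' w hwv
        rw [if_pos hw] at h1
        have h2 := hu1 w
        omega
  -- the two sets covering the complement of `i`
  obtain ⟨J1, J2, hJ1, hJ2, hJne, hJnd, hJu⟩ := P2 i (hi i (self_mem i))
  have hcardU : (J1.1 ∪ J2.1).card = n - k := by
    rw [hJu, Finset.card_compl, Fintype.card_fin, i.2]
  have hUle : (J1.1 ∪ J2.1).card ≤ 2 * k - 1 := by
    have h1 := Finset.card_union_add_card_inter J1.1 J2.1
    have h2 : 0 < (J1.1 ∩ J2.1).card := by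
      rw [Finset.card_pos]
      rwa [Finset.not_disjoint_iff_nonempty_inter] at hJnd
    rw [J1.2, J2.2] at h1
    omega
  have hUge : k + 1 ≤ (J1.1 ∪ J2.1).card := by
    by_contra hc
    have h1 : J1.1 = J1.1 ∪ J2.1 := Finset.eq_of_subset_of_card_le Finset.subset_union_left
      (by rw [J1.2]; omega)
    have h2 : J2.1 = J1.1 ∪ J2.1 := Finset.eq_of_subset_of_card_le Finset.subset_union_right
      (by rw [J2.2]; omega)
    exact hJne (Subtype.ext (h1.trans h2.symm))
  have hk2 : 2 ≤ k := by omega
  have hn3 : n + 2 ≤ 3 * k := by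
    have : n ≠ 3 * k - 1 := fun h => hne ⟨hk2, h⟩
    omega
  -- a point of `J1`
  have hJ1ne : J1.1.Nonempty := by
    rw [← Finset.card_pos, J1.2]
    omega
  obtain ⟨x, hx⟩ := hJ1ne
  -- the rest from `J2 \ J1`
  have hsd : (J2.1 \ J1.1).card = n - 2 * k := by
    have h1 := Finset.card_sdiff_add_card J2.1 J1.1
    rw [Finset.union_comm, hcardU, J1.2] at h1
    omega
  obtain ⟨e', he', hce'⟩ := Finset.exists_subset_card_eq
    (show n - 2 * k - 1 ≤ (J2.1 \ J1.1).card by omega)
  have hxe' : x ∉ e' := fun h => (Finset.mem_sdiff.mp (he' h)).2 hx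
  have hsub : insert x e' ⊆ i.1ᶜ := by
    rw [← hJu]
    intro y hy
    rcases Finset.mem_insert.mp hy with rfl | h
    · exact Finset.mem_union_left _ hx
    · exact Finset.mem_union_right _ (Finset.mem_sdiff.mp (he' h)).1
  have hv'card : (i.1ᶜ \ insert x e').card = k := by
    rw [Finset.card_sdiff_of_subset hsub, ← hJu, hcardU, Finset.card_insert_of_notMem hxe', hce']
    omega
  let v' : Vert n k := ⟨i.1ᶜ \ insert x e', hv'card⟩
  have hv'd : Disjoint i.1 v'.1 := by
    rw [Finset.disjoint_left]
    intro y hy hy'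
    exact (Finset.mem_compl.mp (Finset.mem_sdiff.mp hy').1) hy
  have hiv' : i ≠ v' := by
    intro h
    rw [← h, disjoint_self, Finset.bot_eq_empty, ← Finset.card_eq_zero, i.2] at hv'd
    omega
  obtain ⟨a, b, ha, hb, -, -, hab⟩ := P2 v' (hi v' ((mem_nb i v').mpr (Or.inr ⟨hiv', hv'd⟩)))
  have hxU : x ∈ a.1 ∪ b.1 := by
    rw [hab, Finset.mem_compl]
    intro h
    exact (Finset.mem_sdiff.mp h).2 (Finset.mem_insert_self _ _)
  obtain ⟨c, hc, hcx, hcs⟩ : ∃ c : Vert n k, (∀ w ∈ N c, u w = 1) ∧ x ∈ c.1 ∧ c.1 ⊆ v'.1ᶜ := by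
    rcases Finset.mem_union.mp hxU with h | h
    · exact ⟨a, ha, h, hab ▸ Finset.subset_union_left⟩
    · exact ⟨b, hb, h, hab ▸ Finset.subset_union_right⟩
  have hinter : c.1 ∩ J1.1 = {x} := by
    ext y
    rw [Finset.mem_inter, Finset.mem_singleton]
    constructor
    · rintro ⟨hy1, hy2⟩
      have hyi : y ∈ i.1ᶜ := by
        rw [← hJu]
        exact Finset.mem_union_left _ hy2
      have hyv : y ∉ v'.1 := Finset.mem_compl.mp (hcs hy1)
      by_contra hyx
      apply hyv
      refine Finset.mem_sdiff.mpr ⟨hyi, fun h => ?_⟩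
      rcases Finset.mem_insert.mp h with h | h
      · exact hyx h
      · exact (Finset.mem_sdiff.mp (he' h)).2 hy2
    · rintro rfl
      exact ⟨hcx, hx⟩
  have hcJ : c ≠ J1 := by
    rintro rfl
    rw [Finset.inter_self] at hinter
    have := c.2
    rw [hinter, Finset.card_singleton] at this
    omega
  have hcJd : ¬ Disjoint c.1 J1.1 := by
    rw [Finset.not_disjoint_iff]
    exact ⟨x, hcx, hx⟩
  obtain ⟨w, hw⟩ := H1 c J1
  have hwc : w ∈ N c := by
    by_contra h
    rw [if_neg h] at hw
    split_ifs at hw with h1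
    · rw [hJ1 w h1] at hw
      omega
    · omega
  have hwJ : w ∈ N J1 := by
    by_contra h
    rw [if_neg h, if_pos hwc, hc w hwc] at hw
    omega
  rcases (mem_nb c w).mp hwc with h1 | h1
  · rcases (mem_nb J1 w).mp hwJ with h2 | h2
    · exact hcJ (h1.symm.trans h2)
    · rw [h1] at h2
      exact hcJd h2.2.symm
  · rcases (mem_nb J1 w).mp hwJ with h2 | h2
    · rw [h2] at h1
      exact hcJd h1.2
    · have h3 : w.1 ⊆ (c.1 ∪ J1.1)ᶜ := by
        intro y hy
        rw [Finset.mem_compl, Finset.mem_union]
        rintro (h | h)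
        · exact Finset.disjoint_left.mp h1.2 h hy
        · exact Finset.disjoint_left.mp h2.2 h hy
      have h4 := Finset.card_le_card h3
      have h5 := Finset.card_union_add_card_inter c.1 J1.1
      rw [hinter, Finset.card_singleton, c.2, J1.2] at h5
      rw [Finset.card_compl, Fintype.card_fin, w.2] at h4
      omega

/-- the witness for `n = 3 * k - 1` -/
theorem witness_diam_two (hk : 2 ≤ k) (hn : n = 3 * k - 1) :
    (∀ a b : Vert n k, ∃ w, (1 : ℕ) < (if w ∈ closedNbhd (kneser n k) a then 1 else 0) +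
        (if w ∈ closedNbhd (kneser n k) b then 1 else 0)) ∧
    ∀ v : Vert n k, ∃ a b, ∀ w, (if w ∈ closedNbhd (kneser n k) a then 1 else 0) +
        (if w ∈ closedNbhd (kneser n k) b then 1 else 0) ≤ 1 + (if w = v then 1 else 0) := by
  classical
  set N := closedNbhd (kneser n k) with hN
  have self_mem : ∀ a : Vert n k, a ∈ N a := fun a => (mem_nb a a).mpr (Or.inl rfl)
  have hne' : ∀ c w : Vert n k, Disjoint c.1 w.1 → c ≠ w := by
    rintro c w hd rfl
    rw [disjoint_self, Finset.bot_eq_empty, ← Finset.card_eq_zero, c.2] at hd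
    omega
  constructor
  · intro a b
    by_cases hab : a = b
    · subst hab
      refine ⟨a, ?_⟩
      rw [if_pos (self_mem a)]
      omega
    · by_cases hd : Disjoint a.1 b.1
      · refine ⟨a, ?_⟩
        rw [if_pos (self_mem a), if_pos ((mem_nb b a).mpr (Or.inr ⟨Ne.symm hab, hd.symm⟩))]
        omega
      · have h1 := Finset.card_union_add_card_inter a.1 b.1
        have h2 : 0 < (a.1 ∩ b.1).card := by
          rw [Finset.card_pos]
          rwa [Finset.not_disjoint_iff_nonempty_inter] at hd
        rw [a.2, b.2] at h1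
        obtain ⟨w, hw⟩ := exists_vert (n := n) (k := k) (S := (a.1 ∪ b.1)ᶜ) (by
          rw [Finset.card_compl, Fintype.card_fin]
          omega)
        have hwa : Disjoint a.1 w.1 := by
          rw [Finset.disjoint_left]
          intro y hy hy'
          exact (Finset.mem_compl.mp (hw hy')) (Finset.mem_union_left _ hy)
        have hwb : Disjoint b.1 w.1 := by
          rw [Finset.disjoint_left]
          intro y hy hy'
          exact (Finset.mem_compl.mp (hw hy')) (Finset.mem_union_right _ hy)
        refine ⟨w, ?_⟩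
        rw [if_pos ((mem_nb a w).mpr (Or.inr ⟨hne' a w hwa, hwa⟩)),
          if_pos ((mem_nb b w).mpr (Or.inr ⟨hne' b w hwb, hwb⟩))]
        omega
  · intro v
    have hcv : (v.1ᶜ).card = 2 * k - 1 := by
      rw [Finset.card_compl, Fintype.card_fin, v.2]
      omega
    obtain ⟨a, ha⟩ := exists_vert (n := n) (k := k) (S := v.1ᶜ) (by omega)
    have hane : a.1.Nonempty := by
      rw [← Finset.card_pos, a.2]
      omega
    obtain ⟨y, hy⟩ := hane
    have hyn : y ∉ v.1ᶜ \ a.1 := fun h => (Finset.mem_sdiff.mp h).2 hy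
    have hsd : (v.1ᶜ \ a.1).card = k - 1 := by
      rw [Finset.card_sdiff_of_subset ha, hcv, a.2]
      omega
    let b : Vert n k := ⟨insert y (v.1ᶜ \ a.1), by
      rw [Finset.card_insert_of_notMem hyn, hsd]
      omega⟩
    have hyb : y ∈ b.1 := Finset.mem_insert_self _ _
    have hnd : ¬ Disjoint a.1 b.1 := by
      rw [Finset.not_disjoint_iff]
      exact ⟨y, hy, hyb⟩
    have hab : a ≠ b := by
      intro h
      have h1 : (v.1ᶜ \ a.1).Nonempty := by
        rw [← Finset.card_pos, hsd]
        omega
      obtain ⟨z, hz⟩ := h1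
      have hzb : z ∈ b.1 := Finset.mem_insert_of_mem hz
      rw [← h] at hzb
      exact (Finset.mem_sdiff.mp hz).2 hzb
    refine ⟨a, b, fun w => ?_⟩
    by_cases hwv : w = v
    · rw [if_pos hwv]
      split_ifs <;> omega
    · rw [if_neg hwv]
      by_contra hc
      have hwa : w ∈ N a := by
        by_contra h
        rw [if_neg h] at hc
        split_ifs at hc <;> omega
      have hwb : w ∈ N b := by
        by_contra h
        rw [if_neg h] at hc
        split_ifs at hc <;> omega
      have h1 : Disjoint a.1 w.1 ∧ Disjoint b.1 w.1 := by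
        rcases (mem_nb a w).mp hwa with h1 | h1
        · rcases (mem_nb b w).mp hwb with h2 | h2
          · exact absurd (h1.symm.trans h2) hab
          · rw [h1] at h2
            exact absurd h2.2.symm hnd
        · rcases (mem_nb b w).mp hwb with h2 | h2
          · rw [h2] at h1
            exact absurd h1.2 hnd
          · exact ⟨h1.2, h2.2⟩
      have h2 : w.1 ⊆ v.1 := by
        intro z hz
        by_contra hzv
        have hzc : z ∈ v.1ᶜ := Finset.mem_compl.mpr hzv
        by_cases hza : z ∈ a.1
        · exact Finset.disjoint_left.mp h1.1 hza hz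
        · exact Finset.disjoint_left.mp h1.2 (Finset.mem_insert_of_mem
            (Finset.mem_sdiff.mpr ⟨hzc, hza⟩)) hz
      exact hwv (Subtype.ext (Finset.eq_of_subset_of_card_le h2 (by rw [w.2, v.2])))

/-- the witness in the edgeless case `n < 2 * k` -/
theorem witness_edgeless (hkn : k < n) (hn : n < 2 * k) : ∃ v₀ : Vert n k,
    (∀ a b : Vert n k, ∃ w, (if w = v₀ then 1 else 0) <
      (if w ∈ closedNbhd (kneser n k) a then 1 else 0) +
        (if w ∈ closedNbhd (kneser n k) b then 1 else 0)) ∧
    ∀ v : Vert n k, ∃ a b, ∀ w, (if w ∈ closedNbhd (kneser n k) a then 1 else 0) +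
        (if w ∈ closedNbhd (kneser n k) b then 1 else 0) ≤
          (if w = v₀ then 1 else 0) + (if w = v then 1 else 0) := by
  classical
  have hnb : ∀ a w : Vert n k, w ∈ closedNbhd (kneser n k) a ↔ w = a := by
    intro a w
    rw [mem_nb]
    constructor
    · rintro (h | ⟨_, h⟩)
      · exact h
      · exfalso
        have h1 := Finset.card_union_of_disjoint h
        have h2 := Finset.card_le_univ (a.1 ∪ w.1)
        rw [h1, a.2, w.2, Fintype.card_fin] at h2
        omega
    · exact Or.inl
  simp only [hnb]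
  obtain ⟨v₀, -⟩ := exists_vert (n := n) (k := k) (S := Finset.univ) (by
    rw [Finset.card_univ, Fintype.card_fin]
    omega)
  refine ⟨v₀, ?_, ?_⟩
  · intro a b
    by_cases hab : a = b
    · subst hab
      refine ⟨a, ?_⟩
      rw [if_pos rfl]
      split_ifs <;> omega
    · by_cases ha : a = v₀
      · refine ⟨b, ?_⟩
        rw [if_neg (fun h => hab (ha.trans h.symm)), if_pos rfl]
        omega
      · refine ⟨a, ?_⟩
        rw [if_neg ha, if_pos rfl]
        omega
  · intro v
    exact ⟨v₀, v, fun w => le_rfl⟩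

end Kn

/-- **Main theorem.** For all `1 ≤ k < n` and every field `K`, the maximal homogeneous ideal is an
associated prime of `S / NI(K(n,k)) ^ 2` if and only if `n < 2 * k` (and then `K(n,k)` has no
edges), or `2 ≤ k` and `n = 3 * k - 1`. -/
theorem result (K : Type) [Field K] (n k : ℕ) (hk : 1 ≤ k) (hkn : k < n) :
    IsAssoc (maxIdeal K (Vert n k)) ((NI K (kneser n k)) ^ 2) ↔
      (n < 2 * k ∨ (2 ≤ k ∧ n = 3 * k - 1)) := by
  classical
  rw [assoc_iff]
  constructor
  · rintro ⟨u, H1, H2⟩
    by_contra hc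
    push Not at hc
    exact no_witness hk (by omega) hkn (fun h => hc.2 h.1 h.2) u H1 H2
  · rintro (h | ⟨h1, h2⟩)
    · obtain ⟨v₀, H1, H2⟩ := witness_edgeless (n := n) (k := k) hkn h
      refine ⟨Finsupp.single v₀ 1, ?_, ?_⟩
      · intro a b
        obtain ⟨w, hw⟩ := H1 a b
        refine ⟨w, ?_⟩
        rw [Finsupp.single_apply]
        simpa only [eq_comm] using hw
      · intro v
        obtain ⟨a, b, hw⟩ := H2 v
        refine ⟨a, b, fun w => ?_⟩
        rw [Finsupp.single_apply]
        simpa only [eq_comm] using hw w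
    · obtain ⟨H1, H2⟩ := witness_diam_two (n := n) (k := k) h1 h2
      refine ⟨Finsupp.equivFunOnFinite.symm fun _ => 1, ?_, ?_⟩
      · intro a b
        obtain ⟨w, hw⟩ := H1 a b
        exact ⟨w, by simpa using hw⟩
      · intro v
        obtain ⟨a, b, hw⟩ := H2 v
        exact ⟨a, b, fun w => by simpa using hw w⟩

end Pool.Agent.Results.MP_a8e883_al.KneserSquare
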